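import Pool.Agent.Lib_helper68.ProbeGame
import Pool.Agent.Lib_helper68.FracPower

/-!
The cop wins the probe game on `G^{1/m}` for `m ≥ 2 μ(G) + 1`.
-/

set_option autoImplicit false

namespace Pool.Agent.ProbeGame

namespace Sharp

variable {V : Type} (G : SimpleGraph V) (m : ℕ)

/-- The distance from the vertex `z` of `G`. -/
noncomputable def pz (z : V) : FracVert G m → ℕ
  | Sum.inl v => m * G.dist z v
  | Sum.inr (e, i) => min (m * G.dist z (Quot.out e.1).1 + (i.1 + 1))
      (m * G.dist z (Quot.out e.1).2 + (m - (i.1 + 1)))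

theorem mul_dist_le (hG : G.Connected) (z : V) {u v : V} (h : G.Adj u v) :
    m * G.dist z v ≤ m * G.dist z u + m := by
  have h2 : G.dist z v ≤ G.dist z u + G.dist u v := hG.dist_triangle
  rw [SimpleGraph.dist_eq_one_iff_adj.mpr h] at h2
  calc m * G.dist z v ≤ m * (G.dist z u + 1) := Nat.mul_le_mul_left _ h2
    _ = m * G.dist z u + m := by ring

theorem pz_pathVert (hm : 1 ≤ m) (hG : G.Connected) (z : V) (e : G.edgeSet) (i : ℕ) (hi : i ≤ m) :
    pz G m z (pathVert G m e i) = min (m * G.dist z (Quot.out e.1).1 + i)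
      (m * G.dist z (Quot.out e.1).2 + (m - i)) := by
  have hA := out_adj G e
  have h1 := mul_dist_le G m hG z hA
  have h2 := mul_dist_le G m hG z hA.symm
  rcases Nat.eq_zero_or_pos i with rfl | h0
  · rw [pathVert_zero]
    change m * G.dist z (Quot.out e.1).1 = _
    omega
  · rcases Nat.lt_or_ge i m with h3 | h3
    · rw [pathVert_mid G m e i h0 h3]
      change min _ _ = _
      have : i - 1 + 1 = i := by omega
      simp only [this]
    · have him : i = m := by omega
      subst him
      rw [pathVert_last G i hm]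
      change i * G.dist z (Quot.out e.1).2 = _
      omega

theorem pz_lipschitz (hm : 1 ≤ m) (hG : G.Connected) (z : V) (a b : FracVert G m)
    (h : (fracPower G m).Adj a b) : pz G m z b ≤ pz G m z a + 1 := by
  rw [fracPower, SimpleGraph.fromRel_adj] at h
  rcases h.2 with ⟨e', i, hi, ha, hb⟩ | ⟨e', i, hi, ha, hb⟩
  · rw [ha, hb, pz_pathVert G m hm hG z e' i (by omega),
      pz_pathVert G m hm hG z e' (i + 1) (by omega)]
    omega
  · rw [ha, hb, pz_pathVert G m hm hG z e' i (by omega),
      pz_pathVert G m hm hG z e' (i + 1) (by omega)]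
    omega

/-- distances from a vertex of `G` to a point on the path of an edge -/
theorem dist_pathVert (hm : 1 ≤ m) (hG : G.Connected) (z : V) (e : G.edgeSet) (i : ℕ)
    (hi : i ≤ m) : (fracPower G m).dist (Sum.inl z) (pathVert G m e i) =
      min (m * G.dist z (Quot.out e.1).1 + i) (m * G.dist z (Quot.out e.1).2 + (m - i)) := by
  have hc := fracPower_connected G m hm hG
  apply le_antisymm
  · have h := dist_inl_le G m hm hG e i hi z
    rw [SimpleGraph.dist_comm] at h
    unfold br at h
    rw [G.dist_comm (u := (Quot.out e.1).1), G.dist_comm (u := (Quot.out e.1).2)] at h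
    omega
  · have h0 : pz G m z (Sum.inl z) = 0 := by
      change m * G.dist z z = 0
      rw [SimpleGraph.dist_self, Nat.mul_zero]
    have := le_dist_of_lipschitz hc (Sum.inl z) (pz G m z) h0 (pz_lipschitz G m hm hG z)
      (pathVert G m e i)
    rwa [pz_pathVert G m hm hG z e i hi] at this

theorem dist_inl (hm : 1 ≤ m) (hG : G.Connected) (z v : V) :
    (fracPower G m).dist (Sum.inl z) (Sum.inl v) = m * G.dist z v := by
  have hc := fracPower_connected G m hm hG
  apply le_antisymm (dist_branch_le G m hm hG z v)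
  have h0 : pz G m z (Sum.inl z) = 0 := by
    change m * G.dist z z = 0
    rw [SimpleGraph.dist_self, Nat.mul_zero]
  exact le_dist_of_lipschitz hc (Sum.inl z) (pz G m z) h0 (pz_lipschitz G m hm hG z) (Sum.inl v)

/-- The distance from a vertex of `G` to an inner point of a path is not a multiple of `m`. -/
theorem not_dvd (hm : 1 ≤ m) (hG : G.Connected) (z : V) (e : G.edgeSet) (i : Fin (m - 1)) :
    ¬ m ∣ (fracPower G m).dist (Sum.inl z) (Sum.inr (e, i)) := by
  have hi := i.2
  rw [inr_eq_pathVert, dist_pathVert G m hm hG z e (i.1 + 1) (by omega)]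
  rcases Nat.le_total (m * G.dist z (Quot.out e.1).1 + (i.1 + 1))
    (m * G.dist z (Quot.out e.1).2 + (m - (i.1 + 1))) with h | h
  · rw [min_eq_left h]
    intro hd
    have h1 := (Nat.dvd_add_right (Dvd.intro _ rfl)).mp hd
    have := Nat.le_of_dvd (by omega) h1
    omega
  · rw [min_eq_right h]
    intro hd
    have h1 := (Nat.dvd_add_right (Dvd.intro _ rfl)).mp hd
    have := Nat.le_of_dvd (by omega) h1
    omega

/-- The answers for a fixed sequence of probes. -/
theorem answers_length {W : Type} (H : SimpleGraph W) (σ : List ℕ → W) (r : ℕ → W) (t : ℕ) :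
    (answers H σ r t).length = t := by
  induction t with
  | zero => rfl
  | succ t ih =>
    change (answers H σ r t ++ _).length = t + 1
    rw [List.length_append, ih]
    rfl

theorem answers_eq {W : Type} (H : SimpleGraph W) (p : ℕ → W) (r r' : ℕ → W) (T : ℕ)
    (h : answers H (fun l => p l.length) r' (T + 1) = answers H (fun l => p l.length) r (T + 1)) :
    ∀ t ≤ T, H.dist (p t) (r' t) = H.dist (p t) (r t) := by
  induction T with
  | zero =>
    intro t ht
    have ht0 : t = 0 := by omega
    subst ht0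
    change [H.dist (p 0) (r' 0)] = [H.dist (p 0) (r 0)] at h
    exact List.head_eq_of_cons_eq h
  | succ T ih =>
    intro t ht
    change answers H _ r' (T + 1) ++ [H.dist (p (answers H _ r' (T + 1)).length) (r' (T + 1))] =
      answers H _ r (T + 1) ++ [H.dist (p (answers H _ r (T + 1)).length) (r (T + 1))] at h
    rw [answers_length, answers_length] at h
    have h2 := List.append_inj' h rfl
    rcases Nat.lt_or_ge t (T + 1) with h3 | h3
    · exact ih h2.1 t (by omega)
    · have h4 : t = T + 1 := by omega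
      subst h4
      exact List.head_eq_of_cons_eq h2.2

theorem dist_traj {W : Type} {H : SimpleGraph W} (hc : H.Connected) {r : ℕ → W}
    (hr : IsTrajectory H r) (s d : ℕ) : H.dist (r s) (r (s + d)) ≤ d := by
  induction d with
  | zero => simp
  | succ d ih =>
    have h1 : H.dist (r s) (r (s + d + 1)) ≤ H.dist (r s) (r (s + d)) +
      H.dist (r (s + d)) (r (s + d + 1)) := hc.dist_triangle
    have h2 : H.dist (r (s + d)) (r (s + d + 1)) ≤ 1 := by
      rcases hr (s + d) with h | h
      · rw [h, SimpleGraph.dist_self]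
        exact Nat.zero_le _
      · exact (SimpleGraph.dist_eq_one_iff_adj.mpr h).le
    change H.dist (r s) (r (s + d + 1)) ≤ d + 1
    omega

/-- two neighbouring inner points are on the path of the same edge -/
theorem edge_eq {e e' : G.edgeSet} {i i' : Fin (m - 1)}
    (h : (fracPower G m).Adj (Sum.inr (e, i)) (Sum.inr (e', i'))) : e = e' := by
  have key : ∀ (f : G.edgeSet) (j : ℕ) (f' : G.edgeSet) (k : Fin (m - 1)),
      (Sum.inr (f', k) : FracVert G m) = pathVert G m f j → f' = f := by
    intro f j f' k h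
    unfold pathVert at h
    split_ifs at h with h1 h2
    exact congrArg Prod.fst (Sum.inr_injective h)
  rw [fracPower, SimpleGraph.fromRel_adj] at h
  rcases h.2 with ⟨f, j, hj, h1, h2⟩ | ⟨f, j, hj, h1, h2⟩
  · exact (key _ _ _ _ h1).trans (key _ _ _ _ h2).symm
  · exact (key _ _ _ _ h2).trans (key _ _ _ _ h1).symm

/-- A sequence of probes that runs through `S` in every window of length `card S + 1`, and through
all vertices again and again. -/
theorem exists_sched [Fintype V] [Nonempty V] (S : Finset V) : ∃ p : ℕ → V,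
    (∀ s, S.card ≤ s → ∀ w ∈ S, ∃ s', s' ≤ s ∧ s ≤ s' + S.card ∧ p s' = w) ∧
    ∀ (v : V) (T : ℕ), ∃ t, T ≤ t ∧ p t = v := by
  classical
  obtain ⟨n, hn⟩ : ∃ n, n = S.card := ⟨_, rfl⟩
  let e : S ≃ Fin n := hn ▸ S.equivFin
  let N := Fintype.card V
  have hN : 0 < N := Fintype.card_pos
  let z : V ≃ Fin N := Fintype.equivFin V
  let p : ℕ → V := fun t => if h : t % (n + 1) < n then (e.symm ⟨t % (n + 1), h⟩ : V)
    else z.symm ⟨(t / (n + 1)) % N, Nat.mod_lt _ hN⟩
  have hp1 : ∀ (a : ℕ) (w : S), p ((n + 1) * a + (e w).1) = w := by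
    intro a w
    have h1 : ((n + 1) * a + (e w).1) % (n + 1) = (e w).1 := by
      rw [Nat.mul_add_mod, Nat.mod_eq_of_lt (by omega)]
    have h2 : ((n + 1) * a + (e w).1) % (n + 1) < n := by
      rw [h1]
      exact (e w).2
    have h3 : (⟨((n + 1) * a + (e w).1) % (n + 1), h2⟩ : Fin n) = e w := Fin.ext h1
    simp only [p]
    rw [dif_pos h2, h3, Equiv.symm_apply_apply]
  have hp2 : ∀ (a : ℕ) (v : V), p ((n + 1) * (N * a + (z v).1) + n) = v := by
    intro a v
    have h1 : ¬ ((n + 1) * (N * a + (z v).1) + n) % (n + 1) < n := by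
      rw [Nat.mul_add_mod, Nat.mod_eq_of_lt (by omega)]
      omega
    have h2 : ((n + 1) * (N * a + (z v).1) + n) / (n + 1) % N = (z v).1 := by
      rw [Nat.mul_add_div (by omega), Nat.div_eq_of_lt (by omega), Nat.add_zero,
        Nat.mul_add_mod, Nat.mod_eq_of_lt (z v).2]
    have h3 : (⟨((n + 1) * (N * a + (z v).1) + n) / (n + 1) % N, Nat.mod_lt _ hN⟩ : Fin N) =
      z v := Fin.ext h2
    simp only [p]
    rw [dif_neg h1, h3, Equiv.symm_apply_apply]
  rw [← hn]
  refine ⟨p, ?_, ?_⟩
  · intro s hs w hw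
    have hk := (e ⟨w, hw⟩).2
    have hb : s % (n + 1) < n + 1 := Nat.mod_lt s (by omega)
    have hab := Nat.div_add_mod s (n + 1)
    rcases Nat.lt_or_ge (s % (n + 1)) (e ⟨w, hw⟩).1 with h | h
    · obtain ⟨a, ha⟩ : ∃ a, s / (n + 1) = a + 1 := by
        rcases Nat.eq_zero_or_pos (s / (n + 1)) with h0 | h0
        · rw [h0, Nat.mul_zero] at hab
          omega
        · exact ⟨s / (n + 1) - 1, by omega⟩
      rw [ha, Nat.mul_add, Nat.mul_one] at hab
      refine ⟨(n + 1) * a + (e ⟨w, hw⟩).1, ?_, ?_, hp1 a ⟨w, hw⟩⟩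
      · omega
      · omega
    · refine ⟨(n + 1) * (s / (n + 1)) + (e ⟨w, hw⟩).1, ?_, ?_, hp1 _ ⟨w, hw⟩⟩
      · omega
      · omega
  · intro v T
    refine ⟨(n + 1) * (N * T + (z v).1) + n, ?_, hp2 T v⟩
    have h1 : T ≤ N * T := Nat.le_mul_of_pos_left T hN
    have h2 : N * T + (z v).1 ≤ (n + 1) * (N * T + (z v).1) :=
      Nat.le_mul_of_pos_left _ (by omega)
    omega

variable {G m}

/-- The cop wins with a resolving set of size `n` if `m ≥ 2 n + 1`. -/
theorem copWinnable [Fintype V] (hG : G.Connected) (S : Finset V) (hS : IsResolving G S)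
    (hm : 2 * S.card + 1 ≤ m) : CopWinnable (fracPower G m) := by
  classical
  have hm1 : 1 ≤ m := by omega
  have hne : Nonempty V := hG.nonempty
  have hc := fracPower_connected G m hm1 hG
  obtain ⟨p, hp1, hp2⟩ := exists_sched S
  refine ⟨fun l => Sum.inl (p l.length), ?_⟩
  intro r hr
  by_cases hA : ∃ s, S.card ≤ s ∧ ∃ y : V, r s = Sum.inl y
  · obtain ⟨s, hs, y, hy⟩ := hA
    refine ⟨s, ?_⟩
    intro r' hr' hans
    have hans' := answers_eq (fracPower G m) (fun t => (Sum.inl (p t) : FracVert G m)) r r' s hans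
    obtain ⟨y', hy'⟩ : ∃ y' : V, r' s = Sum.inl y' := by
      rcases hrs : r' s with y' | ⟨e, i⟩
      · exact ⟨y', rfl⟩
      · exfalso
        have h1 := hans' s (le_refl s)
        rw [hrs, hy, dist_inl G m hm1 hG] at h1
        exact not_dvd G m hm1 hG (p s) e i (h1 ▸ Dvd.intro _ rfl)
    rw [hy', hy]
    congr 1
    apply hS
    intro w hw
    obtain ⟨s', hs1, hs2, hs3⟩ := hp1 s hs w hw
    have h1 := hans' s' hs1
    rw [hs3] at h1
    have e1 : s' + (s - s') = s := by omega
    have h2 := dist_traj hc hr s' (s - s')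
    have h3 := dist_traj hc hr' s' (s - s')
    rw [e1] at h2 h3
    rw [hy] at h2
    rw [hy'] at h3
    have t1 : (fracPower G m).dist (Sum.inl w) (Sum.inl y) ≤
        (fracPower G m).dist (Sum.inl w) (r s') + (fracPower G m).dist (r s') (Sum.inl y) :=
      hc.dist_triangle
    have t2 : (fracPower G m).dist (Sum.inl w) (r s') ≤
        (fracPower G m).dist (Sum.inl w) (Sum.inl y) + (fracPower G m).dist (Sum.inl y) (r s') :=
      hc.dist_triangle
    have t3 : (fracPower G m).dist (Sum.inl w) (Sum.inl y') ≤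
        (fracPower G m).dist (Sum.inl w) (r' s') + (fracPower G m).dist (r' s') (Sum.inl y') :=
      hc.dist_triangle
    have t4 : (fracPower G m).dist (Sum.inl w) (r' s') ≤
        (fracPower G m).dist (Sum.inl w) (Sum.inl y') +
        (fracPower G m).dist (Sum.inl y') (r' s') := hc.dist_triangle
    rw [dist_inl G m hm1 hG] at t1 t2 t3 t4
    rw [SimpleGraph.dist_comm (u := Sum.inl y)] at t2
    rw [SimpleGraph.dist_comm (u := Sum.inl y')] at t4
    rw [G.dist_comm (u := y'), G.dist_comm (u := y)]
    have u1 : m * G.dist w y < m * (G.dist w y' + 1) := by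
      rw [Nat.mul_add, Nat.mul_one]
      omega
    have u2 : m * G.dist w y' < m * (G.dist w y + 1) := by
      rw [Nat.mul_add, Nat.mul_one]
      omega
    have v1 := Nat.lt_of_mul_lt_mul_left u1
    have v2 := Nat.lt_of_mul_lt_mul_left u2
    omega
  · push Not at hA
    -- confined trajectories
    have conf : ∀ q : ℕ → FracVert G m, IsTrajectory (fracPower G m) q → ∀ T,
        (∀ s, S.card ≤ s → s ≤ T → ∀ y : V, q s ≠ Sum.inl y) → S.card ≤ T →
        ∃ e : G.edgeSet, ∀ s, S.card ≤ s → s ≤ T → ∃ i, q s = Sum.inr (e, i) := by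
      intro q hq T hT hcT
      rcases h0 : q S.card with y | ⟨e, i⟩
      · exact absurd h0 (hT _ (le_refl _) hcT y)
      · refine ⟨e, ?_⟩
        intro s hs hsT
        induction s, hs using Nat.le_induction with
        | base => exact ⟨i, h0⟩
        | succ s hs ih =>
          obtain ⟨j, hj⟩ := ih (by omega)
          rcases h1 : q (s + 1) with y | ⟨e', i'⟩
          · exact absurd h1 (hT _ (by omega) hsT y)
          · rcases hq s with h2 | h2
            · rw [h1, hj] at h2
              have h3 : e' = e := congrArg Prod.fst (Sum.inr_injective h2)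
              exact ⟨i', by rw [h3]⟩
            · rw [h1, hj] at h2
              have h3 := edge_eq G m h2
              exact ⟨i', by rw [h3]⟩
    have hr0 : ∀ T, ∀ s, S.card ≤ s → s ≤ T → ∀ y : V, r s ≠ Sum.inl y := fun _ s hs _ y =>
      hA s hs y
    obtain ⟨e, he⟩ : ∃ e : G.edgeSet, ∀ s, S.card ≤ s → ∃ i, r s = Sum.inr (e, i) := by
      obtain ⟨e, he⟩ := conf r hr S.card (hr0 _) (le_refl _)
      refine ⟨e, fun s hs => ?_⟩
      obtain ⟨e', he'⟩ := conf r hr s (hr0 _) hs
      obtain ⟨i, hi⟩ := he _ (le_refl _) (le_refl _)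
      obtain ⟨i', hi'⟩ := he' _ (le_refl _) hs
      rw [hi] at hi'
      have h3 : e = e' := congrArg Prod.fst (Sum.inr_injective hi')
      obtain ⟨j, hj⟩ := he' s hs (le_refl _)
      exact ⟨j, by rw [hj, h3]⟩
    obtain ⟨t1, ht1, hpt1⟩ := hp2 (Quot.out e.1).2 S.card
    obtain ⟨t2, ht2, hpt2⟩ := hp2 (Quot.out e.1).1 t1
    refine ⟨t2, ?_⟩
    intro r' hr' hans
    have hans' := answers_eq (fracPower G m) (fun t => (Sum.inl (p t) : FracVert G m)) r r' t2 hans
    obtain ⟨e', he'⟩ := conf r' hr' t2 (by
      intro s hs hst y hy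
      have h1 := hans' s hst
      obtain ⟨i, hi⟩ := he s hs
      rw [hy, hi, dist_inl G m hm1 hG] at h1
      exact not_dvd G m hm1 hG (p s) e i (h1 ▸ Dvd.intro _ rfl)) (by omega)
    have hA1 := out_adj G e
    have d12 : G.dist (Quot.out e.1).1 (Quot.out e.1).2 = 1 :=
      SimpleGraph.dist_eq_one_iff_adj.mpr hA1
    have d21 : G.dist (Quot.out e.1).2 (Quot.out e.1).1 = 1 :=
      SimpleGraph.dist_eq_one_iff_adj.mpr hA1.symm
    -- first endpoint
    have hmem : ∀ (t : ℕ) (x : V), S.card ≤ t → t ≤ t2 → p t = x →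
        (x = (Quot.out e.1).1 ∨ x = (Quot.out e.1).2) →
        (x = (Quot.out e'.1).1 ∨ x = (Quot.out e'.1).2) := by
      intro t x hct htt hpx hx
      have h1 := hans' t htt
      obtain ⟨i, hi⟩ := he t hct
      obtain ⟨i', hi'⟩ := he' t hct htt
      have hi2 := i.2
      have hi3 := i'.2
      rw [hi, hi', inr_eq_pathVert, inr_eq_pathVert, dist_pathVert G m hm1 hG _ _ _ (by omega),
        dist_pathVert G m hm1 hG _ _ _ (by omega), hpx] at h1
      have h2 : min (m * G.dist x (Quot.out e.1).1 + (i.1 + 1))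
          (m * G.dist x (Quot.out e.1).2 + (m - (i.1 + 1))) < m := by
        rcases hx with hx | hx
        · rw [hx, SimpleGraph.dist_self]
          omega
        · rw [hx, SimpleGraph.dist_self]
          omega
      rw [← h1] at h2
      have hz : ∀ a : V, m * G.dist x a < m → x = a := by
        intro a ha
        have h3 : G.dist x a = 0 := by
          by_contra h4
          have h5 : 1 ≤ G.dist x a := Nat.one_le_iff_ne_zero.mpr h4
          have h6 := Nat.mul_le_mul_left m h5
          omega
        exact (hG.dist_eq_zero_iff).mp h3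
      rcases Nat.le_total (m * G.dist x (Quot.out e'.1).1 + (i'.1 + 1))
        (m * G.dist x (Quot.out e'.1).2 + (m - (i'.1 + 1))) with h | h
      · rw [min_eq_left h] at h2
        exact Or.inl (hz _ (by omega))
      · rw [min_eq_right h] at h2
        exact Or.inr (hz _ (by omega))
    have m2 := hmem t1 _ ht1 ht2 hpt1 (Or.inr rfl)
    have m1 := hmem t2 _ (by omega) (le_refl _) hpt2 (Or.inl rfl)
    have hee : e' = e := by
      apply Subtype.ext
      rw [← out_mk G e', ← out_mk G e, Sym2.eq_iff]
      have hn := hA1.ne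
      rcases m1 with m1 | m1
      · rcases m2 with m2 | m2
        · exact absurd (m1.trans m2.symm) hn
        · exact Or.inl ⟨m1.symm, m2.symm⟩
      · rcases m2 with m2 | m2
        · exact Or.inr ⟨m2.symm, m1.symm⟩
        · exact absurd (m1.trans m2.symm) hn
    subst hee
    have h1 := hans' t2 (le_refl _)
    obtain ⟨i, hi⟩ := he t2 (by omega)
    obtain ⟨i', hi'⟩ := he' t2 (by omega) (le_refl _)
    have hi2 := i.2
    have hi3 := i'.2
    rw [hi, hi', inr_eq_pathVert, inr_eq_pathVert, dist_pathVert G m hm1 hG _ _ _ (by omega),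
      dist_pathVert G m hm1 hG _ _ _ (by omega), hpt2, SimpleGraph.dist_self, d12] at h1
    rw [hi, hi']
    congr 2
    apply Fin.ext
    omega

/-- The cop wins the probe game on `G^{1/m}` for every `m ≥ 2 μ(G) + 1`. -/
theorem copWinnable_of_metricDimension [Fintype V] (hG : G.Connected)
    (hm : 2 * metricDimension G + 1 ≤ m) : CopWinnable (fracPower G m) := by
  classical
  have hne : {k : ℕ | ∃ S : Finset V, IsResolving G S ∧ S.card = k}.Nonempty := by
    refine ⟨_, Finset.univ, ?_, rfl⟩
    intro u v h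
    have h1 := h u (Finset.mem_univ u)
    rw [SimpleGraph.dist_self] at h1
    exact ((hG.dist_eq_zero_iff).mp h1.symm).symm
  obtain ⟨S, hS, hc⟩ := Nat.sInf_mem hne
  refine copWinnable hG S hS ?_
  rw [hc]
  exact hm

end Sharp

end Pool.Agent.ProbeGame
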